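import Pool.Agent.Helper96.BT.Defs
import Pool.Agent.Helper60.PH.Push
import Pool.Agent.Helper60.NK.Sym

/-!
# The pushdown program (U1)
-/

set_option autoImplicit false

namespace Pool.Agent.Helper60.BT

open Finset Pool.Agent.Helper19.NF Pool.Agent.Helper74.NW Pool.Agent.Helper96.BT
open Pool.Agent.Helper74.NE (fine fine_apply)
open Pool.Agent.Helper96.NF (good_out good_ask good_push good_pop)
open Pool.Agent.Helper60.PH (Sy St ent sub card_St)

/-! ## The program, with general contents -/

section program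

variable {U D B G C : Type} [Fintype D] [AddCommGroup B] [AddCommGroup G] {R N d : ℕ}

/-- The state after a summand. -/
def nxt (dec : C → D → B) (res : U → C → G) (e : Fin d ≃ D) (e' : Fin N ≃ U) :
    Sy R N d U B G → C → St R N d U B G
  | .inl (σ, t), w => if h : (σ.2.2 : ℕ) + 1 < d then
      .inl (.inl ((σ.1, σ.2.1, ⟨σ.2.2 + 1, h⟩), t + dec w (e σ.2.2))) else .inr (.inl (t + dec w (e σ.2.2)))
  | .inr (j, z), w => if h : (j : ℕ) + 1 < N then .inl (.inr (⟨j + 1, h⟩, z + res (e' j) w)) else
      .inr (.inr (.inr (z + res (e' j) w)))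

/-- The program. -/
def prog (dec : C → D → B) (res : U → C → G) (e : Fin d ≃ D) (e' : Fin N ≃ U) (hd : 0 < d) (hN : 0 < N)
    (g : D → Equiv.Perm U) (x0 : U → B) : PProg B C G (St R N d U B G) (Sy R N d U B G) where
  start := .inl (.inr (⟨0, hN⟩, 0))
  act := fun s => match s with
    | .inl f => .push f (sub e e' hd g x0 f)
    | .inr (.inl x) => .pop (fun f => .inr (.inr (.inl (f, x))))
    | .inr (.inr (.inl (f, x))) => .ask x (nxt dec res e e' f)
    | .inr (.inr (.inr z)) => .out z

variable (dec : C → D → B) (res : U → C → G) (e : Fin d ≃ D) (e' : Fin N ≃ U) (hd : 0 < d) (hN : 0 < N)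
  (g : D → Equiv.Perm U) (x0 : U → B) (J : B → C)

/-- One summand, or `0`. -/
def tb (i : ℕ) (u : U) (s : ℕ) : B :=
  if h : s < d then dec (J (val g x0 (fun b => dec (J b)) i (g (e ⟨s, h⟩) u))) (e ⟨s, h⟩) else 0

theorem sum_tb (i : ℕ) (u : U) :
    ∑ s ∈ Finset.range d, tb dec e g x0 J i u s = val g x0 (fun b => dec (J b)) (i + 1) u := by
  unfold tb
  rw [← Finset.sum_fin_eq_sum_range
    (fun s : Fin d => dec (J (val g x0 (fun b => dec (J b)) i (g (e s) u))) (e s))]
  exact Equiv.sum_comp e (fun c => dec (J (val g x0 (fun b => dec (J b)) i (g c u))) c)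

/-- One summand of the result, or `0`. -/
def tg (R : ℕ) (j : ℕ) : G :=
  if h : j < N then res (e' ⟨j, h⟩) (J (val g x0 (fun b => dec (J b)) (R + 1) (e' ⟨j, h⟩))) else 0

theorem sum_tg [Fintype U] (R : ℕ) : ∑ j ∈ Finset.range N, tg dec res e' g x0 J R j =
    ∑ v, res v (J (val g x0 (fun b => dec (J b)) (R + 1) v)) := by
  unfold tg
  rw [← Finset.sum_fin_eq_sum_range
    (fun j : Fin N => res (e' j) (J (val g x0 (fun b => dec (J b)) (R + 1) (e' j))))]
  exact Equiv.sum_comp e' (fun v => res v (J (val g x0 (fun b => dec (J b)) (R + 1) v)))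

/-- The work at one slot. -/
theorem run_slot {i : ℕ} {hi : i < R + 1} {u : U} {Y : Set B} {a : G} {st : List (Sy R N d U B G)}
    (hY : ∀ i < R + 2, ∀ w, val g x0 (fun b => dec (J b)) i w ∈ Y)
    (IH : ∀ (hi : i ≤ R + 1) (u : U) (st : List (Sy R N d U B G)),
      Helper96.NF.Good (prog dec res e e' hd hN g x0) J Y a (.inr (.inl (val g x0 (fun b => dec (J b)) i u)), st) →
      Helper96.NF.Good (prog dec res e e' hd hN g x0) J Y a (ent hd x0 i hi u, st))
    {j : ℕ} (hj : j < d) {t : B}
    (h : Helper96.NF.Good (prog dec res e e' hd hN g x0) J Y a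
      (if h : j + 1 < d then .inl (.inl ((⟨i, hi⟩, u, ⟨j + 1, h⟩), t + tb dec e g x0 J i u j)) else
        .inr (.inl (t + tb dec e g x0 J i u j)), st)) :
    Helper96.NF.Good (prog dec res e e' hd hN g x0) J Y a (.inl (.inl ((⟨i, hi⟩, u, ⟨j, hj⟩), t)), st) := by
  refine good_push (P := prog dec res e e' hd hN g x0) (g := .inl ((⟨i, hi⟩, u, ⟨j, hj⟩), t)) rfl ?_
  refine IH _ _ _ ?_
  refine good_pop (P := prog dec res e e' hd hN g x0) (s := .inr (.inl _)) rfl ?_
  refine good_ask (P := prog dec res e e' hd hN g x0) (s := .inr (.inr (.inl _))) rfl (hY i (by omega) _) ?_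
  rw [tb, dif_pos hj] at h
  exact h

/-- The evaluation of an element of a row. -/
theorem run_val {Y : Set B} (hY : ∀ i < R + 2, ∀ w, val g x0 (fun b => dec (J b)) i w ∈ Y) (a : G) :
    ∀ (i : ℕ) (hi : i ≤ R + 1) (u : U) (st : List (Sy R N d U B G)),
    Helper96.NF.Good (prog dec res e e' hd hN g x0) J Y a (.inr (.inl (val g x0 (fun b => dec (J b)) i u)), st) →
    Helper96.NF.Good (prog dec res e e' hd hN g x0) J Y a (ent hd x0 i hi u, st) := by
  intro i
  induction i with
  | zero => intro hi u st h; exact h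
  | succ i IH =>
    intro hi u st h
    have key : ∀ (m j : ℕ) (hj : j < d), d = j + (m + 1) → ∀ t : B,
        t = ∑ s ∈ Finset.range j, tb dec e g x0 J i u s →
        Helper96.NF.Good (prog dec res e e' hd hN g x0) J Y a (.inl (.inl ((⟨i, hi⟩, u, ⟨j, hj⟩), t)), st) := by
      intro m
      induction m with
      | zero =>
        intro j hj hd' t ht
        refine run_slot dec res e e' hd hN g x0 J hY IH hj ?_
        have e1 : t + tb dec e g x0 J i u j = val g x0 (fun b => dec (J b)) (i + 1) u := by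
          rw [← sum_tb dec e, ht]
          have hr : Finset.range d = Finset.range (j + 1) := congrArg Finset.range (by omega)
          rw [hr, Finset.sum_range_succ]
        rw [e1, dif_neg (by omega)]
        exact h
      | succ m ih =>
        intro j hj hd' t ht
        refine run_slot dec res e e' hd hN g x0 J hY IH hj ?_
        rw [dif_pos (by omega)]
        refine ih (j + 1) _ (by omega) _ ?_
        rw [Finset.sum_range_succ, ht]
    exact key (d - 1) 0 hd (by omega) 0 (by simp)

/-- The whole evaluation. -/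
theorem run_all [Fintype U] {Y : Set B} (hY : ∀ i < R + 2, ∀ w, val g x0 (fun b => dec (J b)) i w ∈ Y) :
    Helper96.NF.Good (prog dec res e e' hd hN g x0) J Y (∑ v, res v (J (val g x0 (fun b => dec (J b)) (R + 1) v)))
      ((prog (R := R) dec res e e' hd hN g x0).start, []) := by
  have key : ∀ (m j : ℕ) (hj : j < N), N = j + (m + 1) → ∀ z : G,
      z = ∑ s ∈ Finset.range j, tg dec res e' g x0 J R s →
      Helper96.NF.Good (prog (R := R) dec res e e' hd hN g x0) J Y
        (∑ v, res v (J (val g x0 (fun b => dec (J b)) (R + 1) v))) (.inl (.inr (⟨j, hj⟩, z)), []) := by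
    have slot : ∀ (j : ℕ) (hj : j < N) (z : G),
        Helper96.NF.Good (prog (R := R) dec res e e' hd hN g x0) J Y
          (∑ v, res v (J (val g x0 (fun b => dec (J b)) (R + 1) v)))
          (if h : j + 1 < N then .inl (.inr (⟨j + 1, h⟩, z + tg dec res e' g x0 J R j)) else
            .inr (.inr (.inr (z + tg dec res e' g x0 J R j))), []) →
        Helper96.NF.Good (prog (R := R) dec res e e' hd hN g x0) J Y
          (∑ v, res v (J (val g x0 (fun b => dec (J b)) (R + 1) v))) (.inl (.inr (⟨j, hj⟩, z)), []) := by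
      intro j hj z h
      refine good_push (P := prog dec res e e' hd hN g x0) (g := .inr (⟨j, hj⟩, z)) rfl ?_
      refine run_val dec res e e' hd hN g x0 J hY _ (R + 1) le_rfl (e' ⟨j, hj⟩) _ ?_
      refine good_pop (P := prog dec res e e' hd hN g x0) (s := .inr (.inl _)) rfl ?_
      refine good_ask (P := prog dec res e e' hd hN g x0) (s := .inr (.inr (.inl _))) rfl
        (hY (R + 1) (by omega) _) ?_
      rw [tg, dif_pos hj] at h
      exact h
    intro m
    induction m with
    | zero =>
      intro j hj hN' z hz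
      refine slot j hj z ?_
      rw [dif_neg (by omega)]
      have e1 : z + tg dec res e' g x0 J R j = ∑ v, res v (J (val g x0 (fun b => dec (J b)) (R + 1) v)) := by
        rw [← sum_tg dec res e', hz]
        have hr : Finset.range N = Finset.range (j + 1) := congrArg Finset.range (by omega)
        rw [hr, Finset.sum_range_succ]
      rw [e1]
      exact good_out rfl
    | succ m ih =>
      intro j hj hN' z hz
      refine slot j hj z ?_
      rw [dif_pos (by omega)]
      refine ih (j + 1) _ (by omega) _ ?_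
      rw [Finset.sum_range_succ, hz]
  exact key (N - 1) 0 hN (by omega) 0 (by simp)

end program

/-! ## The program over cells -/

/-- The pushdown program over cells, for general contents. -/
theorem cells {n d m : ℕ} {B G C : Type} [AddCommGroup B] [AddCommGroup G] [NeZero m] [Fintype B] [Fintype G]
    (dec : C → (Fin d × Fin m) → B) (res : Fin n × Fin m → C → G) (g : Fin d → Equiv.Perm (Fin n))
    (x0 : Fin n × Fin m → B) (R : ℕ) (hd : 1 ≤ d) (hn : 1 ≤ n) :
    ∃ (Q Γ : Type) (_ : Finite Q) (_ : Finite Γ) (P : PProg B C G Q Γ),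
      Nat.card Q ≤ 4 * ((R + 2) * (n * m) * (d * m)) * (Fintype.card B ^ 2 * Fintype.card G) ∧
      Nat.card Γ ≤ (R + 2) * (n * m) * (d * m) * (Fintype.card B * Fintype.card G) ∧
      ∀ J, P.Outputs J (∑ v, res v (J (val (fine g) x0 (fun b => dec (J b)) (R + 1) v))) ∧
        Nat.card {b // P.Asks J b} ≤ (R + 2) * (n * m) := by
  have hm : 1 ≤ m := Nat.one_le_iff_ne_zero.2 (NeZero.ne m)
  have hU : Fintype.card (Fin n × Fin m) = n * m := by
    rw [Fintype.card_prod, Fintype.card_fin, Fintype.card_fin]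
  have hD : Fintype.card (Fin d × Fin m) = d * m := by
    rw [Fintype.card_prod, Fintype.card_fin, Fintype.card_fin]
  have hd' : 0 < Fintype.card (Fin d × Fin m) := by rw [hD]; exact Nat.mul_pos hd hm
  have hN' : 0 < Fintype.card (Fin n × Fin m) := by rw [hU]; exact Nat.mul_pos hn hm
  have hB : 1 ≤ Fintype.card B := Fintype.card_pos
  have hG : 1 ≤ Fintype.card G := Fintype.card_pos
  have hΓ : Fintype.card (Sy R (Fintype.card (Fin n × Fin m)) (Fintype.card (Fin d × Fin m)) (Fin n × Fin m) B G) ≤
      (R + 2) * (n * m) * (d * m) * (Fintype.card B * Fintype.card G) := by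
    have e1 : Fintype.card (Sy R (Fintype.card (Fin n × Fin m)) (Fintype.card (Fin d × Fin m))
        (Fin n × Fin m) B G) = (R + 1) * ((n * m) * (d * m)) * Fintype.card B + (n * m) * Fintype.card G := by
      simp only [Fintype.card_sum, Fintype.card_prod, Fintype.card_fin]
    rw [e1]
    rw [hD] at hd'
    generalize n * m = N
    generalize d * m = D at hd' ⊢
    generalize Fintype.card B = k at hB
    generalize Fintype.card G = q at hG
    have h1 : (R + 1) * (N * D) * k ≤ (R + 1) * (N * D) * k * q := Nat.le_mul_of_pos_right _ hG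
    have h2 : N * q ≤ N * D * (k * q) := by
      calc N * q = N * 1 * (1 * q) := by ring
        _ ≤ N * D * (k * q) := Nat.mul_le_mul (Nat.mul_le_mul_left _ hd') (Nat.mul_le_mul_right _ hB)
    calc (R + 1) * (N * D) * k + N * q ≤ (R + 1) * (N * D) * k * q + N * D * (k * q) := Nat.add_le_add h1 h2
      _ = (R + 2) * N * D * (k * q) := by ring
  refine ⟨_, _, inferInstance, inferInstance, prog (R := R) dec res (Fintype.equivFin (Fin d × Fin m)).symm
    (Fintype.equivFin (Fin n × Fin m)).symm hd' hN' (fine g) x0, ?_, ?_, fun J => ?_⟩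
  · rw [card_St]
    rw [← Nat.card_eq_fintype_card] at hΓ
    rw [Nat.card_eq_fintype_card (α := B), Nat.card_eq_fintype_card (α := G)]
    generalize Nat.card (Sy R (Fintype.card (Fin n × Fin m)) (Fintype.card (Fin d × Fin m)) (Fin n × Fin m) B G) = s
      at hΓ ⊢
    rw [hD] at hd'
    rw [hU] at hN'
    generalize n * m = N at *
    generalize d * m = D at *
    generalize Fintype.card B = k at *
    generalize Fintype.card G = q at *
    have hX : 1 ≤ (R + 2) * N * D := Nat.mul_pos (Nat.mul_pos (by omega) hN') hd'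
    generalize (R + 2) * N * D = X at *
    have hk2 : k ≤ k ^ 2 := Nat.le_self_pow (by norm_num) k
    have h1 : s ≤ X * (k ^ 2 * q) := hΓ.trans (Nat.mul_le_mul_left _ (Nat.mul_le_mul_right _ hk2))
    have h2 : k ≤ X * (k ^ 2 * q) := by
      calc k = 1 * (k * 1) := by ring
        _ ≤ X * (k ^ 2 * q) := Nat.mul_le_mul hX (Nat.mul_le_mul hk2 hG)
    have h3 : s * k ≤ X * (k ^ 2 * q) := by
      calc s * k ≤ X * (k * q) * k := Nat.mul_le_mul_right _ hΓ
        _ = X * (k ^ 2 * q) := by ring
    have h4 : q ≤ X * (k ^ 2 * q) := by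
      calc q = 1 * (1 * q) := by ring
        _ ≤ X * (k ^ 2 * q) := Nat.mul_le_mul hX (Nat.mul_le_mul_right _ (hB.trans hk2))
    calc s + (k + (s * k + q)) ≤ X * (k ^ 2 * q) + (X * (k ^ 2 * q) + (X * (k ^ 2 * q) + X * (k ^ 2 * q))) := by
          omega
      _ = 4 * X * (k ^ 2 * q) := by ring
  · rw [Nat.card_eq_fintype_card]
    exact hΓ
  · set Y : Set B := Set.range (fun x : Fin (R + 2) × (Fin n × Fin m) =>
      val (fine g) x0 (fun b => dec (J b)) x.1 x.2) with hYdef
    have hY : ∀ i < R + 2, ∀ w, val (fine g) x0 (fun b => dec (J b)) i w ∈ Y :=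
      fun i hi w => ⟨(⟨i, hi⟩, w), rfl⟩
    have h := run_all (R := R) dec res (Fintype.equivFin (Fin d × Fin m)).symm
      (Fintype.equivFin (Fin n × Fin m)).symm hd' hN' (fine g) x0 J hY
    refine ⟨h.1, ?_⟩
    have hsub : {b | (prog (R := R) dec res (Fintype.equivFin (Fin d × Fin m)).symm
        (Fintype.equivFin (Fin n × Fin m)).symm hd' hN' (fine g) x0).Asks J b} ⊆ Y := by
      rintro b ⟨j, nx, hb⟩
      exact h.2 j b nx hb
    calc _ ≤ Nat.card Y := Nat.card_mono (Set.toFinite _) hsub
      _ ≤ Nat.card (Fin (R + 2) × (Fin n × Fin m)) := Nat.card_le_card_of_surjective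
          (Set.rangeFactorization _) Set.rangeFactorization_surjective
      _ = (R + 2) * (n * m) := by
          rw [Nat.card_eq_fintype_card, Fintype.card_prod, Fintype.card_fin, hU]

/-! ## U1 -/

section net

variable {n D m S : ℕ} [NeZero m] {F B W G Z : Type} [Field F] [Fintype F] [AddCommGroup B] [AddCommGroup W]
  [Module F W] [Fintype W] [Fintype B] (enc : W →+ (Fin D × Fin m → B))

omit [Field F] [Fintype F] [AddCommGroup B] [AddCommGroup W] [Module F W] in
/-- The number of queried symbols. -/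
theorem card_asks {Q Q' Γ : Type} {P : PProg B (W × F) F Q Γ} {P' : PProg (B × W) F F Q' Γ} {J : B → W × F}
    {I : B × W → F} (h : ∀ x, P'.Asks I x → P.Asks J x.1) {k : ℕ} (hk : Nat.card {b // P.Asks J b} ≤ k) :
    Nat.card {x // P'.Asks I x} ≤ k * Nat.card W := by
  calc Nat.card {x // P'.Asks I x} ≤ Nat.card ({b // P.Asks J b} × W) :=
        Nat.card_le_card_of_injective
          (fun x : {x // P'.Asks I x} => ((⟨x.1.1, h x.1 x.2⟩ : {b // P.Asks J b}), x.1.2)) (by
            rintro ⟨⟨b, l⟩, hx⟩ ⟨⟨b', l'⟩, hx'⟩ h1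
            simp only [Prod.mk.injEq, Subtype.mk.injEq] at h1
            obtain ⟨h2, h3⟩ := h1
            subst h2
            subst h3
            rfl)
    _ = Nat.card {b // P.Asks J b} * Nat.card W := Nat.card_prod _ _
    _ ≤ k * Nat.card W := Nat.mul_le_mul_right _ hk

open Classical in
/-- The result without rows. -/
theorem program_zero (g : Fin 0 → Equiv.Perm (Fin n)) (x0 : Fin n × Fin m → B) (enc : W →+ (Fin 0 × Fin m → B))
    (m1 R : ℕ) (hn : 0 < n) (hB2 : 2 ≤ Fintype.card B)
    (hW : Fintype.card B ^ 9 ≤ Fintype.card W) (hF : Fintype.card F ≤ Fintype.card B) :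
    ∃ (Q Γ : Type) (_ : Finite Q) (_ : Finite Γ) (P : PProg (B × W) F F Q Γ),
      Nat.card Q ≤ Nat.card (B × W) ^ 3 ∧ Nat.card Γ ≤ Nat.card (B × W) ∧
      ∀ I, P.Outputs I (out enc g x0 m1 R I) ∧
        Nat.card {x // P.Asks I x} ≤ (R + 2) * (n * m) * Nat.card W := by
  have hm : 1 ≤ m := Nat.one_le_iff_ne_zero.2 (NeZero.ne m)
  let k : ℕ := ((univ : Finset (Fin n × Fin m)).filter (fun v => v.2.val < m1)).card
  let P : PProg (B × W) F F (Option F) Unit :=
    { start := none
      act := fun s => match s with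
        | none => .ask (0, 0) some
        | some y => .out (k • y) }
  have hval : ∀ (I : B × W → F) v, val (fine g) x0 (tab enc I) (R + 1) v = 0 := by
    intro I v
    show ∑ c : Fin 0 × Fin m, _ = _
    exact Finset.sum_eq_zero fun c _ => Fin.elim0 c.1
  have hQ : Nat.card (Option F) = Fintype.card F + 1 := by
    rw [Nat.card_eq_fintype_card, Fintype.card_option]
  have hBW : Nat.card (B × W) = Fintype.card B * Fintype.card W := by
    rw [Nat.card_prod, Nat.card_eq_fintype_card, Nat.card_eq_fintype_card]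
  have hB9 : Fintype.card B ≤ Fintype.card B ^ 9 := Nat.le_self_pow (by norm_num) _
  have hBW2 : Fintype.card F + 1 ≤ Nat.card (B × W) := by
    rw [hBW]
    nlinarith
  have hstep : ∀ (I : B × W → F) (j : ℕ), P.conf I (j + 1) = (some (I (0, 0)), []) := by
    intro I j
    induction j with
    | zero => rfl
    | succ j ih =>
      have h1 : P.conf I (j + 1 + 1) = P.step I (P.conf I (j + 1)) := Function.iterate_succ_apply' _ _ _
      rw [h1, ih]
      rfl
  refine ⟨Option F, Unit, inferInstance, inferInstance, P, ?_, ?_, fun I => ⟨⟨1, ?_⟩, ?_⟩⟩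
  · rw [hQ]
    exact hBW2.trans (Nat.le_self_pow (by norm_num) _)
  · have h1 : Nat.card Unit = 1 := Nat.card_unique
    rw [h1]
    omega
  · have h1 : P.conf I 1 = (some (I (0, 0)), []) := hstep I 0
    rw [h1]
    show PAct.out _ = PAct.out _
    congr 1
    unfold Helper96.BT.out
    simp only [hval]
    rw [Finset.sum_const]
  · have h1 : ∀ x : B × W, P.Asks I x → x = (0, 0) := by
      rintro x ⟨j, nx, hj⟩
      rcases j with _ | j
      · have h2 : (PAct.ask (0, 0) some : PAct (B × W) F F (Option F) Unit) = .ask x nx := hj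
        cases h2
        rfl
      · rw [hstep] at hj
        cases hj
    have h2 : Nat.card {x // P.Asks I x} ≤ 1 := by
      have : Subsingleton {x // P.Asks I x} := ⟨fun a b => Subtype.ext ((h1 _ a.2).trans (h1 _ b.2).symm)⟩
      exact Finite.card_le_one_iff_subsingleton.mpr inferInstance
    refine h2.trans ?_
    have h3 : 1 ≤ Nat.card W := by
      rw [Nat.card_eq_fintype_card]
      exact Fintype.card_pos
    exact Nat.mul_pos (Nat.mul_pos (by omega) (Nat.mul_pos hn hm)) h3

/-- U1: the pushdown program. -/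
theorem pushdown_program (g : Fin D → Equiv.Perm (Fin n)) (x0 : Fin n × Fin m → B) (m1 R : ℕ) (hn : 0 < n)
    (hB : (R + 2) * (n * m) * (D * m) ≤ Fintype.card B) (hB2 : 2 ≤ Fintype.card B)
    (hW : Fintype.card B ^ 9 ≤ Fintype.card W) (hF : Fintype.card F ≤ Fintype.card B) :
    ∃ (Q Γ : Type) (_ : Finite Q) (_ : Finite Γ) (P : PProg (B × W) F F Q Γ),
      Nat.card Q ≤ Nat.card (B × W) ^ 3 ∧ Nat.card Γ ≤ Nat.card (B × W) ∧
      ∀ I, P.Outputs I (out enc g x0 m1 R I) ∧
        Nat.card {x // P.Asks I x} ≤ (R + 2) * (n * m) * Nat.card W := by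
  classical
  rcases Nat.eq_zero_or_pos D with rfl | hD
  · exact program_zero g x0 enc m1 R hn hB2 hW hF
  obtain ⟨Q, Γ, hQf, hΓf, P, hQ, hΓ, hP⟩ := cells (C := W × F) (G := F) (fun w => enc w.1)
    (fun v w => if v.2.val < m1 then w.2 else 0) g x0 R hD hn
  obtain ⟨Q', hQ'f, P', hQ', hP'⟩ := Helper60.NK.symbols_of_contents (V := W)
    (fun (y : F) (l : W) => (y • l, if l = 0 then y else 0)) P
  have htab : ∀ (I : B × W → F) (b : B),
      Helper60.NK.tabA (fun (y : F) (l : W) => (y • l, if l = 0 then y else 0)) I b =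
        (cont (fun l => I (b, l)), I (b, 0)) := by
    intro I b
    unfold Helper60.NK.tabA cont
    refine Prod.ext ?_ ?_
    · rw [Prod.fst_sum]
    · rw [Prod.snd_sum]
      simp
  have hΓ0 : Nat.card Γ ≤ Fintype.card B * (Fintype.card B * Fintype.card F) :=
    hΓ.trans (Nat.mul_le_mul_right _ hB)
  have hQ0 : Nat.card Q ≤ 4 * Fintype.card B * (Fintype.card B ^ 2 * Fintype.card F) :=
    hQ.trans (Nat.mul_le_mul_right _ (Nat.mul_le_mul_left _ hB))
  have hBW : Nat.card (B × W) = Fintype.card B * Fintype.card W := by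
    rw [Nat.card_prod, Nat.card_eq_fintype_card, Nat.card_eq_fintype_card]
  refine ⟨Q', Γ, hQ'f, hΓf, P', ?_, ?_, fun I => ?_⟩
  · rw [hQ', Nat.card_prod, hBW, Nat.card_eq_fintype_card (α := W), Nat.card_eq_fintype_card (α := F)]
    generalize Fintype.card B = b at *
    generalize Fintype.card W = w at *
    generalize Fintype.card F = f at *
    generalize Nat.card Q = q at *
    have h4 : 4 ≤ b ^ 2 := by nlinarith
    have h5 : b ^ 4 ≤ w := (Nat.pow_le_pow_right (by omega) (by norm_num)).trans hW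
    calc q * (w * (w * f)) ≤ 4 * b * (b ^ 2 * f) * (w * (w * f)) := Nat.mul_le_mul_right _ hQ0
      _ = 4 * (f * f) * (b ^ 3 * w ^ 2) := by ring
      _ ≤ b ^ 2 * (b * b) * (b ^ 3 * w ^ 2) := Nat.mul_le_mul_right _ (Nat.mul_le_mul h4 (Nat.mul_le_mul hF hF))
      _ = b ^ 4 * (b ^ 3 * w ^ 2) := by ring
      _ ≤ w * (b ^ 3 * w ^ 2) := Nat.mul_le_mul_right _ h5
      _ = (b * w) ^ 3 := by ring
  · rw [hBW]
    refine hΓ0.trans (Nat.mul_le_mul_left _ ?_)
    calc Fintype.card B * Fintype.card F ≤ Fintype.card B * Fintype.card B := Nat.mul_le_mul_left _ hF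
      _ = Fintype.card B ^ 2 := (sq _).symm
      _ ≤ Fintype.card B ^ 9 := Nat.pow_le_pow_right (by omega) (by norm_num)
      _ ≤ Fintype.card W := hW
  · have h1 := hP (Helper60.NK.tabA (fun (y : F) (l : W) => (y • l, if l = 0 then y else 0)) I)
    refine ⟨(hP' I).1 _ ?_, card_asks (hP' I).2 h1.2⟩
    convert h1.1 using 1
    unfold Helper96.BT.out tab
    simp only [htab]
    rw [Finset.sum_filter]

end net

end Pool.Agent.Helper60.BT
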